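import Pool.Agent.Work.MP_e17eac_co.Bd.B23
import Pool.Agent.Work.MP_e17eac_co.Bd.B32
import Pool.Agent.Work.MP_e17eac_co.Bd.B24

/-!
# Arbitrary point sets: from the sweep of a level to all finite point sets in general position

`StK` is the bound for sweeps (`KSys`), `StP` the bound for `k`-edges of point sets, `StB` the bound
for the number of bisectors.
-/

namespace Pool.Agent.Work.MP_e17eac_co.FINAL

open Finset
open Pool.Agent.Work.MP_e17eac_co.DH
open Pool.Agent.Work.MP_e17eac_co.PS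

/-- Power saving for the sweep of a level in an arrangement of lines in general position. -/
def StK : Prop := ∃ c : ℝ, 0 < c ∧ ∃ C : ℝ, 0 < C ∧
  ∀ (ι : Type) [Fintype ι] [DecidableEq ι] (K : KSys ι), Function.Injective K.x →
  XSWEEP.GP K.x K.y → (K.N : ℝ) ≤ C * (Fintype.card ι : ℝ) ^ ((4 : ℝ) / 3 - c)

/-- Power saving for all point sets in general position. -/
def StP : Prop := ∃ c : ℝ, 0 < c ∧ ∃ C : ℝ, 0 < C ∧
  ∀ P : Finset (ℝ × ℝ), GenPos P →
  ∀ k : ℕ, ((kEdges P k).card : ℝ) ≤ C * (P.card : ℝ) ^ ((4 : ℝ) / 3 - c)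

/-- No three points of `P` are on a common line. -/
def NoThree (P : Finset (ℝ × ℝ)) : Prop :=
  ∀ p ∈ P, ∀ q ∈ P, ∀ r ∈ P, p ≠ q → p ≠ r → q ≠ r → ¬ Collinear ℝ {p, q, r}

/-- The line through the distinct points `p, q` of `P` is a bisector (halving line) of `P`:
each of the two open half-planes bounded by it contains exactly `|P|/2 - 1` points of `P`. -/
def IsHalv (P : Finset (ℝ × ℝ)) (p q : ℝ × ℝ) : Prop :=
  p ∈ P ∧ q ∈ P ∧ p ≠ q ∧
    {r | r ∈ P ∧ 0 < side p q r}.ncard + 1 = P.card / 2 ∧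
    {r | r ∈ P ∧ side p q r < 0}.ncard + 1 = P.card / 2

/-- The set of bisectors (halving lines) of `P`. -/
def bisec (P : Finset (ℝ × ℝ)) : Set (AffineSubspace ℝ (ℝ × ℝ)) :=
  {l | ∃ p q, IsHalv P p q ∧ l = affineSpan ℝ {p, q}}

/-- Power saving for the number of bisectors (halving lines). -/
def StB : Prop := ∃ c : ℝ, 0 < c ∧ ∃ C : ℝ, 0 < C ∧
  ∀ P : Finset (ℝ × ℝ), Even P.card → NoThree P →
  (bisec P).Finite ∧ ((bisec P).ncard : ℝ) ≤ C * (P.card : ℝ) ^ ((4 : ℝ) / 3 - c)

namespace XPts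

open Classical XResX in
/-- Ordered pairs, distinct abscissae. -/
theorem ordered (hK : StK) (hS : StSweepY) : ∃ c : ℝ, 0 < c ∧
    ∃ C : ℝ, 0 < C ∧ ∀ (P : Finset (ℝ × ℝ)), GenPos P →
    (∀ p ∈ P, ∀ q ∈ P, p ≠ q → p.1 ≠ q.1) →
    ∀ (k : ℕ) (T : Finset ((ℝ × ℝ) × (ℝ × ℝ))), (∀ e ∈ T, e.1 ∈ P ∧ e.2 ∈ P ∧ e.1.1 < e.2.1 ∧
      (P.filter fun r => side e.1 e.2 r < 0).card = k) →
    (T.card : ℝ) ≤ C * (P.card : ℝ) ^ ((4 : ℝ) / 3 - c) := by
  obtain ⟨c, hc, C, hC, hM⟩ := hK
  refine ⟨c, hc, C, hC, ?_⟩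
  intro P hgen hsep k T hT
  rcases P.eq_empty_or_nonempty with hP | hP
  · have : T = ∅ := by
      apply Finset.eq_empty_of_forall_notMem
      intro e he
      have := (hT e he).1
      rw [hP] at this
      simp at this
    rw [this]
    simp only [Finset.card_empty, Nat.cast_zero]
    positivity
  obtain ⟨p0, hp0, hmin⟩ := Finset.exists_min_image P Prod.fst hP
  obtain ⟨p1, hp1, hmax⟩ := Finset.exists_max_image P Prod.fst hP
  have : Nonempty P := ⟨⟨p0, hp0⟩⟩
  set u : ℝ := p1.1 - p0.1 + 1 with hu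
  have hu0 : 0 < u := by
    have := hmin p1 hp1
    simp only [hu]
    linarith
  set X0 : ℝ := p0.1 with hX0
  let x : P → ℝ := fun i => ((i : ℝ × ℝ).1 - X0) / u
  let y : P → ℝ := fun i => (i : ℝ × ℝ).2
  have hx01 : ∀ i, 0 ≤ x i ∧ x i ≤ 1 := by
    intro i
    have h1 := hmin i i.2
    have h2 := hmax i i.2
    constructor
    · exact div_nonneg (by linarith) hu0.le
    · rw [div_le_one hu0]
      simp only [hu]
      linarith
  have hdiff : ∀ i j : P, x i - x j = ((i : ℝ × ℝ).1 - (j : ℝ × ℝ).1) / u := by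
    intro i j
    exact (scale X0 u hu0 j i i).1
  have hinj : Function.Injective x := by
    intro i j h
    by_contra hne
    have h1 := hdiff i j
    rw [h, sub_self] at h1
    have hne' : (i : ℝ × ℝ) ≠ j := fun h => hne (Subtype.ext h)
    rcases div_eq_zero_iff.1 h1.symm with h2 | h2
    · exact hsep i i.2 j j.2 hne' (by linarith)
    · exact hu0.ne' h2
  have hdet : ∀ i j l : P, det3 x y i j l = side (i : ℝ × ℝ) j l / u := by
    intro i j l
    exact (scale X0 u hu0 i j l).2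
  have hnc : ∀ i j l : P, i ≠ j → i ≠ l → j ≠ l → det3 x y i j l ≠ 0 := by
    intro i j l hij hil hjl h
    rw [hdet] at h
    have h3 : side (i : ℝ × ℝ) j l = 0 := by
      rcases div_eq_zero_iff.1 h with h | h
      · exact h
      · exact absurd h hu0.ne'
    exact hgen i i.2 j j.2 l l.2 (fun h => hij (Subtype.ext h)) (fun h => hil (Subtype.ext h))
      (fun h => hjl (Subtype.ext h)) h3
  have hlvl : ∀ i j : P, lvl x y i j = (P.filter fun r => side (i : ℝ × ℝ) j r < 0).card := by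
    intro i j
    unfold lvl
    refine Finset.card_bij (fun i _ => (i : ℝ × ℝ)) ?_ ?_ ?_
    · intro l hl
      rw [Finset.mem_filter] at hl ⊢
      refine ⟨l.2, ?_⟩
      have h1 := hl.2
      rw [hdet, div_neg_iff] at h1
      exact h1.elim (fun h => absurd h.2 (not_lt.2 hu0.le)) (fun h => h.1)
    · intro i _ j _ h
      exact Subtype.ext h
    · intro r hr
      rw [Finset.mem_filter] at hr
      refine ⟨⟨r, hr.1⟩, Finset.mem_filter.2 ⟨Finset.mem_univ _, ?_⟩, rfl⟩
      rw [hdet]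
      exact div_neg_of_neg_of_pos hr.2 hu0
  obtain ⟨K, hKx, hKy, -, hKex⟩ := hS P x y k hx01 hinj hnc
  have hcardP : Fintype.card P = P.card := Fintype.card_coe P
  have hgp : XSWEEP.GP K.x K.y := by
    intro i j l hij hil hjl h
    rw [hKx, hKy] at h
    exact hnc i j l hij hil hjl (sub_eq_zero.2 h)
  have hN := hM P K (by rw [hKx]; exact hinj) hgp
  rw [hcardP] at hN
  refine le_trans ?_ hN
  have hidx : ∀ e ∈ T, ∃ n, n < K.N ∧ ((K.b n : P) : ℝ × ℝ) = e.1 ∧
      ((K.a n : P) : ℝ × ℝ) = e.2 := by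
    intro e he
    obtain ⟨h1, h2, h3, h4⟩ := hT e he
    have hx : x ⟨e.1, h1⟩ < x ⟨e.2, h2⟩ := by
      have h5 := hdiff ⟨e.2, h2⟩ ⟨e.1, h1⟩
      have h6 : 0 < (e.2.1 - e.1.1) / u := div_pos (by linarith) hu0
      have h7 : x ⟨e.2, h2⟩ - x ⟨e.1, h1⟩ = (e.2.1 - e.1.1) / u := h5
      linarith
    obtain ⟨n, hn, hb, ha⟩ := hKex ⟨e.1, h1⟩ ⟨e.2, h2⟩ hx (by rw [hlvl]; exact h4)
    exact ⟨n, hn, by rw [hb], by rw [ha]⟩
  choose! f hf1 hf2 hf3 using hidx
  have : T.card ≤ (range K.N).card := by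
    apply Finset.card_le_card_of_injOn f
    · intro e he
      have he' : e ∈ T := he
      rw [Finset.mem_coe, Finset.mem_range]
      exact hf1 e he'
    · intro e he e' he' h
      have he1 : e ∈ T := he
      have he2 : e' ∈ T := he'
      have a1 := hf2 e he1
      have a2 := hf2 e' he2
      have b1 := hf3 e he1
      have b2 := hf3 e' he2
      rw [h] at a1 b1
      exact Prod.ext (a1.symm.trans a2) (b1.symm.trans b2)
  rw [Finset.card_range] at this
  exact_mod_cast this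

open Classical XResX in
/-- All `k`-edges, distinct abscissae. -/
theorem distinct (hK : StK) (hS : StSweepY) : ∃ c : ℝ, 0 < c ∧
    ∃ C : ℝ, 0 < C ∧ ∀ (P : Finset (ℝ × ℝ)), GenPos P →
    (∀ p ∈ P, ∀ q ∈ P, p ≠ q → p.1 ≠ q.1) →
    ∀ k : ℕ, ((kEdges P k).card : ℝ) ≤ C * (P.card : ℝ) ^ ((4 : ℝ) / 3 - c) := by
  obtain ⟨c, hc, C, hC, h⟩ := ordered hK hS
  refine ⟨c, hc, 2 * C, by positivity, ?_⟩
  intro P hgen hsep k
  set T : ℕ → Finset ((ℝ × ℝ) × (ℝ × ℝ)) := fun j =>
    (P ×ˢ P).filter fun e => e.1.1 < e.2.1 ∧ (P.filter fun r => side e.1 e.2 r < 0).card = j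
    with hT
  have hTb : ∀ j, ((T j).card : ℝ) ≤ C * (P.card : ℝ) ^ ((4 : ℝ) / 3 - c) := by
    intro j
    refine h P hgen hsep j (T j) ?_
    intro e he
    simp only [hT, Finset.mem_filter, Finset.mem_product] at he
    exact ⟨he.1.1, he.1.2, he.2.1, he.2.2⟩
  have hsub : kEdges P k ⊆ (T (P.card - 2 - k) ∪ T k).image fun e => ({e.1, e.2} : Finset (ℝ × ℝ)) := by
    intro e he
    simp only [kEdges, Finset.mem_filter] at he
    obtain ⟨-, p, q, rfl, hp, hq, hne, hk1, hk2⟩ := he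
    have hx : p.1 ≠ q.1 := hsep p hp q hq hne
    rcases lt_or_gt_of_ne hx with hlt | hlt
    · refine Finset.mem_image.2 ⟨(p, q), Finset.mem_union_left _ ?_, rfl⟩
      simp only [hT, Finset.mem_filter, Finset.mem_product]
      refine ⟨⟨hp, hq⟩, hlt, ?_⟩
      omega
    · refine Finset.mem_image.2 ⟨(q, p), Finset.mem_union_right _ ?_, Finset.pair_comm q p⟩
      simp only [hT, Finset.mem_filter, Finset.mem_product]
      refine ⟨⟨hq, hp⟩, hlt, ?_⟩
      rw [filter_swap]
      exact hk1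
  have h1 : (kEdges P k).card ≤ (T (P.card - 2 - k)).card + (T k).card :=
    (Finset.card_le_card hsub).trans (Finset.card_image_le.trans (Finset.card_union_le _ _))
  have h2 : ((kEdges P k).card : ℝ) ≤ (T (P.card - 2 - k)).card + (T k).card := by
    exact_mod_cast h1
  linarith [hTb (P.card - 2 - k), hTb k]

open Classical in
/-- A shear with distinct abscissae exists. -/
theorem exists_shear (P : Finset (ℝ × ℝ)) : ∃ ε : ℝ, ∀ p ∈ P, ∀ q ∈ P, p ≠ q →
    p.1 + ε * p.2 ≠ q.1 + ε * q.2 := by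
  obtain ⟨ε, hε⟩ := Set.Infinite.exists_notMem_finset (Set.infinite_univ (α := ℝ))
    ((P ×ˢ P).image fun e => (e.1.1 - e.2.1) / (e.2.2 - e.1.2))
  refine ⟨ε, ?_⟩
  intro p hp q hq hpq h
  rw [Finset.mem_image] at hε
  apply hε.2
  refine ⟨(p, q), Finset.mem_product.2 ⟨hp, hq⟩, ?_⟩
  have h1 : p.1 - q.1 = ε * (q.2 - p.2) := by linarith
  have h2 : q.2 - p.2 ≠ 0 := by
    intro h3
    rw [h3, mul_zero] at h1
    exact hpq (Prod.ext (by linarith) (by linarith))
  show (p.1 - q.1) / (q.2 - p.2) = ε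
  rw [h1]
  field_simp

end XPts

open Classical in
/-- **Glue**: sweeps to point sets. -/
theorem pts_of_K (hK : StK) : StP := by
  obtain ⟨c, hc, C, hC, h⟩ := XPts.distinct hK I_PtSwy
  refine ⟨c, hc, C, hC, ?_⟩
  intro P hgen k
  obtain ⟨ε, hε⟩ := XPts.exists_shear P
  have hcardi : (P.image (XResS.sh ε)).card = P.card :=
    Finset.card_image_of_injective P (XResS.sh_inj ε)
  have h1 := h (P.image (XResS.sh ε)) (XResS.genPos_image (XResS.side_sh ε) hgen) ?_ k
  · rw [hcardi] at h1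
    refine le_trans ?_ h1
    exact_mod_cast XResS.kEdges_card_le (XResS.sh_inj ε) (XResS.side_sh ε) P k
  · intro p hp q hq hpq
    obtain ⟨p', hp', rfl⟩ := Finset.mem_image.mp hp
    obtain ⟨q', hq', rfl⟩ := Finset.mem_image.mp hq
    exact hε p' hp' q' hq' (fun e => hpq (by rw [e]))

namespace XPts

theorem ncard_eq_filter (P : Finset (ℝ × ℝ)) (Q : ℝ × ℝ → Prop) [DecidablePred Q] :
    {r | r ∈ P ∧ Q r}.ncard = (P.filter Q).card := by
  rw [← Set.ncard_coe_finset]
  congr 1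
  ext r
  simp

/-- General position in terms of the determinant. -/
theorem genPos (P : Finset (ℝ × ℝ)) (hgp : NoThree P) : GenPos P := by
  intro p hp q hq r hr hpq hpr hqr h0
  apply hgp p hp q hq r hr hpq hpr hqr
  rw [collinear_iff_of_mem (p₀ := p) (by simp)]
  refine ⟨q - p, ?_⟩
  unfold side at h0
  intro x hx
  simp only [Set.mem_insert_iff, Set.mem_singleton_iff] at hx
  rcases hx with rfl | rfl | rfl
  · exact ⟨0, by simp⟩
  · exact ⟨1, by simp⟩
  · by_cases h1 : q.1 - p.1 = 0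
    · have h2 : q.2 - p.2 ≠ 0 := by
        intro h2
        apply hpq
        ext
        · linarith
        · linarith
      refine ⟨(x.2 - p.2) / (q.2 - p.2), ?_⟩
      have h3 : x.1 - p.1 = 0 := by
        rw [h1] at h0
        have : (q.2 - p.2) * (x.1 - p.1) = 0 := by linarith
        rcases mul_eq_zero.mp this with h | h
        · exact absurd h h2
        · exact h
      ext
      · simp only [vadd_eq_add, Prod.fst_add, Prod.smul_fst, Prod.fst_sub, smul_eq_mul]
        rw [h1]; linarith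
      · simp only [vadd_eq_add, Prod.snd_add, Prod.smul_snd, Prod.snd_sub, smul_eq_mul]
        field_simp
        ring
    · refine ⟨(x.1 - p.1) / (q.1 - p.1), ?_⟩
      ext
      · simp only [vadd_eq_add, Prod.fst_add, Prod.smul_fst, Prod.fst_sub, smul_eq_mul]
        field_simp
        ring
      · simp only [vadd_eq_add, Prod.snd_add, Prod.smul_snd, Prod.snd_sub, smul_eq_mul]
        field_simp
        linarith

open Classical in
/-- The bisectors are the lines of the `(n/2 - 1)`-edges. -/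
theorem bisec_sub (P : Finset (ℝ × ℝ)) (he : Even P.card) :
    bisec P ⊆ ((kEdges P (P.card / 2 - 1)).image
      (fun e : Finset (ℝ × ℝ) => affineSpan ℝ (e : Set (ℝ × ℝ))) : Finset (AffineSubspace ℝ (ℝ × ℝ))) := by
  rintro l ⟨p, q, ⟨hp, hq, hpq, h1, h2⟩, rfl⟩
  rw [ncard_eq_filter] at h1 h2
  rw [Finset.mem_coe, Finset.mem_image]
  refine ⟨{p, q}, ?_, ?_⟩
  · unfold kEdges
    rw [Finset.mem_filter, Finset.mem_powersetCard]
    obtain ⟨m, hm⟩ := he
    refine ⟨⟨?_, Finset.card_pair hpq⟩, p, q, rfl, hp, hq, hpq, ?_, ?_⟩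
    · intro r hr
      rcases Finset.mem_insert.1 hr with rfl | hr
      · exact hp
      · rw [Finset.mem_singleton.1 hr]
        exact hq
    · omega
    · omega
  · rw [Finset.coe_pair]

end XPts

open Classical in
/-- From `k`-edges to bisectors. -/
theorem bis_of_pts (h : StP) : StB := by
  obtain ⟨c, hc, C, hC, h⟩ := h
  refine ⟨c, hc, C, hC, ?_⟩
  intro P he hgp
  have h1 := XPts.bisec_sub P he
  refine ⟨(Finset.finite_toSet _).subset h1, ?_⟩
  have h2 := Set.ncard_le_ncard h1 (Finset.finite_toSet _)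
  rw [Set.ncard_coe_finset] at h2
  have h3 : ((bisec P).ncard : ℝ) ≤ ((kEdges P (P.card / 2 - 1)).card : ℝ) := by
    exact_mod_cast h2.trans Finset.card_image_le
  exact h3.trans (h P (XPts.genPos P hgp) _)

end Pool.Agent.Work.MP_e17eac_co.FINAL
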