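import Pool.Agent.Work.MP_e17eac_co.FINAL.Pts

/-!
# Draft of the hand-in `Results/MP_e17eac_co/PowerSaving.lean`

Replace the hypothesis `hK` by the final theorem about sweeps.
-/

set_option autoImplicit false

namespace Pool.Agent.Work.MP_e17eac_co.FINAL.Draft

open Finset Pool.Agent.Work.MP_e17eac_co

/-- General position: no three distinct points of `P` lie on a common line. -/
def GeneralPosition (P : Finset (ℝ × ℝ)) : Prop :=
  ∀ p ∈ P, ∀ q ∈ P, ∀ r ∈ P, p ≠ q → p ≠ r → q ≠ r → ¬ Collinear ℝ {p, q, r}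

/-- Twice the signed area of the triangle `p q r`: positive exactly when `r` lies strictly to the
left of the directed line from `p` to `q`, negative exactly when `r` lies strictly to the right. -/
def signedArea (p q r : ℝ × ℝ) : ℝ := (q.1 - p.1) * (r.2 - p.2) - (q.2 - p.2) * (r.1 - p.1)

/-- The line `l` passes through two points of `P`, exactly `k` points of `P` lie strictly on one
side of `l`, and exactly `|P| - 2 - k` points of `P` lie strictly on the other side.
For `|P|` even and `k = |P| / 2 - 1` these lines are the bisectors (halving lines) of `P`. -/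
def IsKLine (P : Finset (ℝ × ℝ)) (k : ℕ) (l : AffineSubspace ℝ (ℝ × ℝ)) : Prop :=
  ∃ p ∈ P, ∃ q ∈ P, p ≠ q ∧ l = affineSpan ℝ {p, q} ∧
    {r | r ∈ P ∧ 0 < signedArea p q r}.ncard = k ∧
    {r | r ∈ P ∧ signedArea p q r < 0}.ncard + k + 2 = P.card

/-- There are absolute constants `c > 0` and `C` such that every set `P` of `n` points in the plane
in general position has at most `C n ^ (4/3 - c)` many `k`-lines, for every `k`; in particular, for
`n` even, at most `C n ^ (4/3 - c)` bisectors. -/
theorem result (hK : FINAL.StK) : ∃ c : ℝ, 0 < c ∧ ∃ C : ℝ, 0 < C ∧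
    ∀ P : Finset (ℝ × ℝ), GeneralPosition P → ∀ k : ℕ, {l | IsKLine P k l}.Finite ∧
      ({l | IsKLine P k l}.ncard : ℝ) ≤ C * (P.card : ℝ) ^ ((4 : ℝ) / 3 - c) := by
  classical
  obtain ⟨c, hc, C, hC, H⟩ := FINAL.pts_of_K hK
  refine ⟨c, hc, C, hC, ?_⟩
  intro P hP k
  have h0 : {l | IsKLine P k l} ⊆ ((DH.kEdges P k).image
      (fun e : Finset (ℝ × ℝ) => affineSpan ℝ (e : Set (ℝ × ℝ))) :
        Finset (AffineSubspace ℝ (ℝ × ℝ))) := by
    rintro l ⟨p, hp, q, hq, hpq, rfl, h1, h2⟩
    have hside : ∀ p q r, signedArea p q r = side p q r := fun p q r => rfl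
    simp only [hside] at h1 h2
    rw [FINAL.XPts.ncard_eq_filter] at h1 h2
    rw [Finset.mem_coe, Finset.mem_image]
    refine ⟨{p, q}, ?_, ?_⟩
    · unfold DH.kEdges
      rw [Finset.mem_filter, Finset.mem_powersetCard]
      refine ⟨⟨?_, Finset.card_pair hpq⟩, p, q, ?_, hp, hq, hpq, ?_, ?_⟩
      · intro r hr
        rcases Finset.mem_insert.1 hr with rfl | hr
        · exact hp
        · rw [Finset.mem_singleton.1 hr]
          exact hq
      · ext r
        simp only [Finset.mem_insert, Finset.mem_singleton]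
      · convert h1
      · convert h2
    · rw [Finset.coe_pair]
  refine ⟨(Finset.finite_toSet _).subset h0, ?_⟩
  have h2 := Set.ncard_le_ncard h0 (Finset.finite_toSet _)
  rw [Set.ncard_coe_finset] at h2
  have h3 : ({l | IsKLine P k l}.ncard : ℝ) ≤ ((DH.kEdges P k).card : ℝ) := by
    exact_mod_cast h2.trans Finset.card_image_le
  exact h3.trans (H P (FINAL.XPts.genPos P hP) k)

end Pool.Agent.Work.MP_e17eac_co.FINAL.Draft
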