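import Pool.Agent.Work.MP_e17eac_co.Bd.B21
import Pool.Agent.Work.MP_e17eac_co.FINAL.Pts

/-!
# Arbitrary sets: the numeric step from `BB.StMain` to `FINAL.StK` (small sets by Dey's bound)
-/

namespace Pool.Agent.Work.MP_e17eac_co.FINAL

open Finset
open Pool.Agent.Work.MP_e17eac_co.DH

theorem dey_all {ι : Type} [Fintype ι] [DecidableEq ι] (hDeyI : StDeyI) (K : KSys ι)
    (hx : Function.Injective K.x) :
    (K.N : ℝ) ≤ 16 * (Fintype.card ι : ℝ) ^ ((4 : ℝ) / 3) := by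
  have h1 := hDeyI ι K hx 0 K.N le_rfl
  rw [Nat.card_Ico, Nat.sub_zero] at h1
  have h2 : (K.lines (Ico 0 K.N)).card ≤ Fintype.card ι := Finset.card_le_univ _
  have h3 : K.N ^ 3 ≤ 4096 * (Fintype.card ι) ^ 4 :=
    h1.trans (Nat.mul_le_mul_left _ (Nat.pow_le_pow_left h2 4))
  have h4 : (K.N : ℝ) ^ 3 ≤ (16 * (Fintype.card ι : ℝ) ^ ((4 : ℝ) / 3)) ^ 3 := by
    have e1 : ((Fintype.card ι : ℝ) ^ ((4 : ℝ) / 3)) ^ 3 = (Fintype.card ι : ℝ) ^ 4 := by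
      rw [← Real.rpow_natCast ((Fintype.card ι : ℝ) ^ ((4 : ℝ) / 3)) 3,
        ← Real.rpow_mul (Nat.cast_nonneg _)]
      norm_num
    rw [mul_pow, e1]
    have : ((K.N ^ 3 : ℕ) : ℝ) ≤ ((4096 * (Fintype.card ι) ^ 4 : ℕ) : ℝ) := by exact_mod_cast h3
    push_cast at this
    norm_num
    linarith
  exact le_of_pow_le_pow_left₀ (by norm_num) (by positivity) h4

/-- From the bound for large `n` to all `n`. -/
theorem stK_of_main (hDeyI : StDeyI) (h : BB.StMain) : StK := by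
  obtain ⟨c, hc0, n0, h⟩ := h
  obtain ⟨c', hc', hc'0, hc'1, hc'c⟩ : ∃ c' : ℝ, c' = min c 1 ∧ 0 < c' ∧ c' ≤ 1 ∧ c' ≤ c :=
    ⟨_, rfl, lt_min hc0 one_pos, min_le_right _ _, min_le_left _ _⟩
  obtain ⟨T, hT⟩ : ∃ T : ℝ, T = (n0 : ℝ) + 1 := ⟨_, rfl⟩
  have hT1 : 1 ≤ T := by
    have : (0 : ℝ) ≤ n0 := Nat.cast_nonneg _
    linarith
  have hTc : 1 ≤ T ^ c' := Real.one_le_rpow hT1 hc'0.le
  refine ⟨c', hc'0, 16 * T ^ c', by positivity, ?_⟩
  intro ι _ _ K hx hg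
  obtain ⟨n, hn⟩ : ∃ n : ℝ, n = (Fintype.card ι : ℝ) := ⟨_, rfl⟩
  have hdey := dey_all hDeyI K hx
  rw [← hn] at hdey ⊢
  have hn0 : 0 ≤ n := by rw [hn]; exact Nat.cast_nonneg _
  rcases Nat.eq_zero_or_pos (Fintype.card ι) with hz | hpos
  · have hnz : n = 0 := by rw [hn, hz]; norm_num
    rw [hnz] at hdey ⊢
    rw [Real.zero_rpow (by norm_num)] at hdey
    rw [Real.zero_rpow (by linarith)]
    linarith
  have hn1 : 1 ≤ n := by rw [hn]; exact_mod_cast hpos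
  have hnpos : 0 < n := by linarith
  have hP : 0 ≤ n ^ ((4 : ℝ) / 3 - c') := Real.rpow_nonneg hn0 _
  rcases le_total n0 (Fintype.card ι) with hge | hle
  · have h1 := h ι K hx hg hge
    rw [← hn] at h1
    have h2 : n ^ ((4 : ℝ) / 3 - c) ≤ n ^ ((4 : ℝ) / 3 - c') :=
      Real.rpow_le_rpow_of_exponent_le hn1 (by linarith)
    nlinarith
  · have hsplit : n ^ ((4 : ℝ) / 3) = n ^ ((4 : ℝ) / 3 - c') * n ^ c' := by
      rw [← Real.rpow_add hnpos]; congr 1; ring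
    rw [hsplit] at hdey
    have hnT : n ≤ T := by
      rw [hn, hT]
      have : (Fintype.card ι : ℝ) ≤ n0 := by exact_mod_cast hle
      linarith
    have h1 : n ^ c' ≤ T ^ c' := Real.rpow_le_rpow hn0 hnT hc'0.le
    nlinarith [mul_le_mul_of_nonneg_left h1 hP]

end Pool.Agent.Work.MP_e17eac_co.FINAL
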